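import Mathlib

/-! Two disjoint unit regular 8-simplices in dimension 12 whose union has diameter one. -/

set_option autoImplicit false

namespace Pool.Agent.H526Z.Schur

/-- Ten times the coordinates of the first simplex. -/
def A : Fin 9 → Fin 12 → ℤ :=
  ![![7,1,0,0,0,0,0,0,0,0,0,0],
    ![0,0,7,1,0,0,0,0,0,0,0,0],
    ![0,0,0,0,7,1,0,0,0,0,0,0],
    ![0,0,0,0,0,0,5,5,0,0,0,0],
    ![0,0,0,0,0,0,5,-5,0,0,0,0],
    ![0,0,0,0,0,0,0,0,5,5,0,0],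
    ![0,0,0,0,0,0,0,0,5,-5,0,0],
    ![0,0,0,0,0,0,0,0,0,0,5,5],
    ![0,0,0,0,0,0,0,0,0,0,5,-5]]

/-- Ten times the coordinates of the second simplex. -/
def B : Fin 9 → Fin 12 → ℤ :=
  ![![5,5,0,0,0,0,0,0,0,0,0,0],
    ![5,-5,0,0,0,0,0,0,0,0,0,0],
    ![0,0,5,5,0,0,0,0,0,0,0,0],
    ![0,0,5,-5,0,0,0,0,0,0,0,0],
    ![0,0,0,0,5,5,0,0,0,0,0,0],
    ![0,0,0,0,5,-5,0,0,0,0,0,0],
    ![0,0,0,0,0,0,7,1,0,0,0,0],
    ![0,0,0,0,0,0,0,0,7,1,0,0],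
    ![0,0,0,0,0,0,0,0,0,0,7,1]]

def sq (u v : Fin 12 → ℤ) : ℤ := ∑ i, (u i - v i) ^ 2

theorem AA : ∀ a b : Fin 9, a ≠ b → sq (A a) (A b) = 100 := by decide
theorem BB : ∀ a b : Fin 9, a ≠ b → sq (B a) (B b) = 100 := by decide
theorem AB : ∀ a b : Fin 9, 0 < sq (A a) (B b) ∧ sq (A a) (B b) ≤ 100 := by decide

noncomputable def pt (u : Fin 12 → ℤ) : EuclideanSpace ℝ (Fin 12) :=
  WithLp.toLp 2 (fun i => (u i : ℝ) / 10)

theorem dist_pt (u v : Fin 12 → ℤ) : dist (pt u) (pt v) = Real.sqrt ((sq u v : ℝ) / 100) := by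
  rw [EuclideanSpace.dist_eq]
  congr 1
  simp only [pt, sq, Real.dist_eq, sq_abs]
  push_cast
  rw [Finset.sum_div]
  refine Finset.sum_congr rfl fun i _ => ?_
  ring

theorem dist_one {u v : Fin 12 → ℤ} (h : sq u v = 100) : dist (pt u) (pt v) = 1 := by
  rw [dist_pt, h]; norm_num

theorem dist_le {u v : Fin 12 → ℤ} (h : sq u v ≤ 100) : dist (pt u) (pt v) ≤ 1 := by
  rw [dist_pt]
  have : (sq u v : ℝ) ≤ 100 := by exact_mod_cast h
  rw [Real.sqrt_le_one]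
  linarith

theorem pt_ne {u v : Fin 12 → ℤ} (h : 0 < sq u v) : pt u ≠ pt v := by
  intro e
  have h1 : dist (pt u) (pt v) = 0 := by rw [e, dist_self]
  rw [dist_pt, Real.sqrt_eq_zero'] at h1
  have : (0 : ℝ) < (sq u v : ℝ) := by exact_mod_cast h
  linarith

theorem inj_of {P : Fin 9 → Fin 12 → ℤ} (h : ∀ a b : Fin 9, a ≠ b → sq (P a) (P b) = 100) :
    Function.Injective fun a => pt (P a) := by
  intro a b e
  by_contra hne
  exact pt_ne (by rw [h a b hne]; norm_num) e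

theorem exists_pair :
    ∃ S₁ S₂ : Finset (EuclideanSpace ℝ (Fin 12)), S₁.card = 9 ∧ S₂.card = 9 ∧
      (∀ x ∈ S₁, ∀ y ∈ S₁, x ≠ y → dist x y = 1) ∧
      (∀ x ∈ S₂, ∀ y ∈ S₂, x ≠ y → dist x y = 1) ∧
      (∀ x ∈ S₁, ∀ y ∈ S₂, dist x y ≤ 1) ∧ (∀ x ∈ S₁, x ∉ S₂) := by
  classical
  refine ⟨Finset.univ.image fun a => pt (A a), Finset.univ.image fun a => pt (B a),
    ?_, ?_, ?_, ?_, ?_, ?_⟩
  · rw [Finset.card_image_of_injective _ (inj_of AA)]; simp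
  · rw [Finset.card_image_of_injective _ (inj_of BB)]; simp
  · intro x hx y hy hne
    obtain ⟨a, -, rfl⟩ := Finset.mem_image.mp hx
    obtain ⟨b, -, rfl⟩ := Finset.mem_image.mp hy
    exact dist_one (AA a b (by rintro rfl; exact hne rfl))
  · intro x hx y hy hne
    obtain ⟨a, -, rfl⟩ := Finset.mem_image.mp hx
    obtain ⟨b, -, rfl⟩ := Finset.mem_image.mp hy
    exact dist_one (BB a b (by rintro rfl; exact hne rfl))
  · intro x hx y hy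
    obtain ⟨a, -, rfl⟩ := Finset.mem_image.mp hx
    obtain ⟨b, -, rfl⟩ := Finset.mem_image.mp hy
    exact dist_le (AB a b).2
  · intro x hx hy
    obtain ⟨a, -, rfl⟩ := Finset.mem_image.mp hx
    obtain ⟨b, -, e⟩ := Finset.mem_image.mp hy
    exact pt_ne (AB a b).1 e.symm

end Pool.Agent.H526Z.Schur
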